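import Pool.Agent.helper62.VQ.SpecE

/-!
# Row vqe:GRO (MP_07c750_an): growth of the distance of two orbits
-/

set_option autoImplicit false

open scoped MatrixGroups ContDiff Topology UpperHalfPlane
open UpperHalfPlane MeasureTheory Filter Set

namespace Pool.Agent.VQE

open Pool.Agent.RS

/-- a Gronwall inequality which is only used below the level `1` -/
theorem GRO_gr (L : ℝ) (hL : 0 ≤ L) (N N' : ℝ → ℝ) (hN : ∀ s, HasDerivAt N (N' s) s)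
    (hb : ∀ s, N s < 1 → N' s ≤ L * N s) (t : ℝ) (ht : 0 ≤ t) (A : ℝ) (hA0 : 0 ≤ A) (hA : N 0 ≤ A)
    (hA1 : A * Real.exp (L * t) < 1) : N t ≤ A * Real.exp (L * t) := by
  have hcont : Continuous (fun ε : ℝ => (A + ε) * Real.exp ((L + ε) * t)) := by fun_prop
  have htend : Tendsto (fun ε : ℝ => (A + ε) * Real.exp ((L + ε) * t)) (𝓝[>] 0) (𝓝 (A * Real.exp (L * t))) := by
    have h1 := hcont.tendsto 0
    rw [add_zero, add_zero] at h1
    exact h1.mono_left nhdsWithin_le_nhds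
  have hev : ∀ᶠ ε : ℝ in 𝓝[>] 0, N t ≤ (A + ε) * Real.exp ((L + ε) * t) := by
    filter_upwards [htend.eventually (gt_mem_nhds hA1), self_mem_nhdsWithin] with ε hε1 hε0
    have hε0' : 0 < ε := hε0
    have hB : ∀ s, HasDerivAt (fun s : ℝ => (A + ε) * Real.exp ((L + ε) * s)) ((A + ε) * (Real.exp ((L + ε) * s) * (L + ε))) s := by
      intro s
      have h1 : HasDerivAt (fun s : ℝ => (L + ε) * s) (L + ε) s := by
        simpa using (hasDerivAt_id s).const_mul (L + ε)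
      exact (h1.exp).const_mul (A + ε)
    have hcN : Continuous N := continuous_iff_continuousAt.2 fun s => (hN s).continuousAt
    have hcB : Continuous (fun s : ℝ => (A + ε) * Real.exp ((L + ε) * s)) := by fun_prop
    refine image_le_of_deriv_right_lt_deriv_boundary' (f := N) (f' := N') (a := 0) (b := t)
      (B := fun s : ℝ => (A + ε) * Real.exp ((L + ε) * s)) (B' := fun s => (A + ε) * (Real.exp ((L + ε) * s) * (L + ε)))
      hcN.continuousOn (fun x _ => (hN x).hasDerivWithinAt) ?_ hcB.continuousOn (fun x _ => (hB x).hasDerivWithinAt) ?_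
      (right_mem_Icc.2 ht)
    · rw [mul_zero, Real.exp_zero, mul_one]
      linarith
    · intro x hx hx'
      have h2 : (A + ε) * Real.exp ((L + ε) * x) ≤ (A + ε) * Real.exp ((L + ε) * t) := by
        refine mul_le_mul_of_nonneg_left (Real.exp_le_exp.2 (mul_le_mul_of_nonneg_left hx.2.le (by linarith))) (by linarith)
      have h3 : N x < 1 := by
        rw [hx']
        exact lt_of_le_of_lt h2 hε1
      have h4 := hb x h3
      have h5 : 0 < (A + ε) * Real.exp ((L + ε) * x) := mul_pos (by linarith) (Real.exp_pos _)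
      have h6 : 0 < N x := by rw [hx']; exact h5
      calc N' x ≤ L * N x := h4
        _ < (L + ε) * N x := by nlinarith
        _ = _ := by rw [hx']; ring
  exact ge_of_tendsto htend hev

theorem GRO_e (g h : SL(2, ℝ)) : (g⁻¹ * h).1 0 0 = g.1 1 1 * h.1 0 0 - g.1 0 1 * h.1 1 0 ∧
    (g⁻¹ * h).1 0 1 = g.1 1 1 * h.1 0 1 - g.1 0 1 * h.1 1 1 ∧
    (g⁻¹ * h).1 1 0 = g.1 0 0 * h.1 1 0 - g.1 1 0 * h.1 0 0 ∧
    (g⁻¹ * h).1 1 1 = g.1 0 0 * h.1 1 1 - g.1 1 0 * h.1 0 1 := by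
  have h1 : (g⁻¹ * h).1 = !![g.1 1 1, -g.1 0 1; -g.1 1 0, g.1 0 0] * h.1 := by
    rw [Matrix.SpecialLinearGroup.SL2_inv_expl]
    rfl
  rw [h1]
  refine ⟨?_, ?_, ?_, ?_⟩ <;> simp [Matrix.mul_apply, Fin.sum_univ_two] <;> ring

/-- the sum of the squares of the entries of `D - 1` -/
noncomputable def GRO_N (D : SL(2, ℝ)) : ℝ := (D.1 0 0 - 1) ^ 2 + D.1 0 1 ^ 2 + D.1 1 0 ^ 2 + (D.1 1 1 - 1) ^ 2

theorem GRO_nm (D : SL(2, ℝ)) : |D.1 0 0 - 1| ≤ nm D ∧ |D.1 0 1| ≤ nm D ∧ |D.1 1 0| ≤ nm D ∧ |D.1 1 1 - 1| ≤ nm D ∧ 0 ≤ nm D := by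
  have h1 : |D.1 0 0 - 1| ≤ nm D := (le_max_left _ _).trans (le_max_left _ _)
  exact ⟨h1, (le_max_right _ _).trans (le_max_left _ _),
    (le_max_left _ _).trans (le_max_right _ _), (le_max_right _ _).trans (le_max_right _ _), (abs_nonneg _).trans h1⟩

theorem GRO_N1 (D : SL(2, ℝ)) : GRO_N D ≤ 4 * nm D ^ 2 := by
  obtain ⟨h1, h2, h3, h4, h5⟩ := GRO_nm D
  have e1 := sq_le_sq' (abs_le.1 h1).1 (abs_le.1 h1).2
  have e2 := sq_le_sq' (abs_le.1 h2).1 (abs_le.1 h2).2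
  have e3 := sq_le_sq' (abs_le.1 h3).1 (abs_le.1 h3).2
  have e4 := sq_le_sq' (abs_le.1 h4).1 (abs_le.1 h4).2
  unfold GRO_N
  linarith

theorem GRO_N2 (D : SL(2, ℝ)) : nm D ^ 2 ≤ GRO_N D := by
  unfold GRO_N nm
  rcases max_choice (max |D.1 0 0 - 1| |D.1 0 1|) (max |D.1 1 0| |D.1 1 1 - 1|) with h | h <;> rw [h]
  · rcases max_choice |D.1 0 0 - 1| |D.1 0 1| with h' | h' <;> rw [h', sq_abs] <;> nlinarith [sq_nonneg (D.1 0 0 - 1), sq_nonneg (D.1 0 1), sq_nonneg (D.1 1 0), sq_nonneg (D.1 1 1 - 1)]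
  · rcases max_choice |D.1 1 0| |D.1 1 1 - 1| with h' | h' <;> rw [h', sq_abs] <;> nlinarith [sq_nonneg (D.1 0 0 - 1), sq_nonneg (D.1 0 1), sq_nonneg (D.1 1 0), sq_nonneg (D.1 1 1 - 1)]

/-- the derivative of `GRO_N` -/
noncomputable def GRO_N' (a b c d P Q p q : ℝ) : ℝ :=
  2 * ((a - 1) * (a * (P - p) / 2 + b * Q + q * c) + b * (-(a * Q) - b * (P + p) / 2 + q * d) +
    c * (c * (P + p) / 2 + d * Q - q * a) + (d - 1) * (-(c * Q) - d * (P - p) / 2 - q * b))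

theorem GRO_der (p q : SL(2, ℝ) → ℝ) (f : ℝ → SL(2, ℝ) → SL(2, ℝ)) (hf : Flw p q f) (g h : SL(2, ℝ)) (t : ℝ) :
    HasDerivAt (fun s => GRO_N ((f s g)⁻¹ * f s h))
      (GRO_N' (((f t g)⁻¹ * f t h).1 0 0) (((f t g)⁻¹ * f t h).1 0 1) (((f t g)⁻¹ * f t h).1 1 0) (((f t g)⁻¹ * f t h).1 1 1)
        (p (f t h)) (q (f t h)) (p (f t g)) (q (f t g))) t := by
  have g00 := hf.d0 0 t g
  have g10 := hf.d0 1 t g
  have g01 := hf.d1 0 t g
  have g11 := hf.d1 1 t g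
  have h00 := hf.d0 0 t h
  have h10 := hf.d0 1 t h
  have h01 := hf.d1 0 t h
  have h11 := hf.d1 1 t h
  have ha := (g11.mul h00).sub (g01.mul h10)
  have hb := (g11.mul h01).sub (g01.mul h11)
  have hc := (g00.mul h10).sub (g10.mul h00)
  have hd := (g00.mul h11).sub (g10.mul h01)
  have hN := ((((ha.sub_const 1).pow 2).add (hb.pow 2)).add (hc.pow 2)).add ((hd.sub_const 1).pow 2)
  have hfun : (fun s => GRO_N ((f s g)⁻¹ * f s h)) = fun s =>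
      ((f s g).1 1 1 * (f s h).1 0 0 - (f s g).1 0 1 * (f s h).1 1 0 - 1) ^ 2 +
      ((f s g).1 1 1 * (f s h).1 0 1 - (f s g).1 0 1 * (f s h).1 1 1) ^ 2 +
      ((f s g).1 0 0 * (f s h).1 1 0 - (f s g).1 1 0 * (f s h).1 0 0) ^ 2 +
      ((f s g).1 0 0 * (f s h).1 1 1 - (f s g).1 1 0 * (f s h).1 0 1 - 1) ^ 2 := by
    funext s
    obtain ⟨e1, e2, e3, e4⟩ := GRO_e (f s g) (f s h)
    unfold GRO_N
    rw [e1, e2, e3, e4]
  rw [hfun]
  refine HasDerivAt.congr_deriv hN ?_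
  obtain ⟨e1, e2, e3, e4⟩ := GRO_e (f t g) (f t h)
  unfold GRO_N'
  rw [e1, e2, e3, e4]
  simp only [Pi.sub_apply, Pi.mul_apply]
  ring

theorem GRO_bd (δ a b c d P Q p q n : ℝ) (hδ : 0 ≤ δ) (hδ' : δ ≤ 1 / 100) (hn : 0 ≤ n) (hn1 : n ≤ 1)
    (ha : |a - 1| ≤ n) (hb : |b| ≤ n) (hc : |c| ≤ n) (hd : |d - 1| ≤ n)
    (hN : n ^ 2 ≤ (a - 1) ^ 2 + b ^ 2 + c ^ 2 + (d - 1) ^ 2)
    (hP : |P - 1| ≤ δ) (hQ : |Q| ≤ δ) (hp : |p - 1| ≤ δ) (hq : |q| ≤ δ) (hPp : |P - p| ≤ δ * n) (hQq : |Q - q| ≤ δ * n) :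
    |GRO_N' a b c d P Q p q| ≤ 2 * (1 + 20 * δ) * ((a - 1) ^ 2 + b ^ 2 + c ^ 2 + (d - 1) ^ 2) := by
  have hδn : 0 ≤ δ * n := mul_nonneg hδ hn
  have hprod : ∀ x y X Y : ℝ, |x| ≤ X → |y| ≤ Y → |x * y| ≤ X * Y := by
    intro x y X Y hx hy
    rw [abs_mul]
    exact mul_le_mul hx hy (abs_nonneg _) ((abs_nonneg _).trans hx)
  -- the four error terms
  have e1 : |a * (P - p) / 2 + b * Q + q * c| ≤ 3 * (δ * n) := by
    have h1 : a * (P - p) / 2 + b * Q + q * c = (a - 1) * (P - p) / 2 + (P - p) / 2 + b * Q + q * c := by ring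
    rw [h1]
    have i1 := abs_le.1 (hprod _ _ _ _ ha hPp)
    have i2 := abs_le.1 (hprod _ _ _ _ hb hQ)
    have i3 := abs_le.1 (hprod _ _ _ _ hq hc)
    have i4 := abs_le.1 hPp
    have i5 : n * (δ * n) ≤ δ * n := mul_le_of_le_one_left hδn hn1
    rw [abs_le]
    constructor <;> nlinarith
  have e4 : |-(c * Q) - d * (P - p) / 2 - q * b| ≤ 3 * (δ * n) := by
    have h1 : -(c * Q) - d * (P - p) / 2 - q * b = -(c * Q) - (d - 1) * (P - p) / 2 - (P - p) / 2 - q * b := by ring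
    rw [h1]
    have i1 := abs_le.1 (hprod _ _ _ _ hd hPp)
    have i2 := abs_le.1 (hprod _ _ _ _ hc hQ)
    have i3 := abs_le.1 (hprod _ _ _ _ hq hb)
    have i4 := abs_le.1 hPp
    have i5 : n * (δ * n) ≤ δ * n := mul_le_of_le_one_left hδn hn1
    rw [abs_le]
    constructor <;> nlinarith
  have e2 : |-(a * Q) + q * d| ≤ 3 * (δ * n) := by
    have h1 : -(a * Q) + q * d = -((a - 1) * Q) + q * (d - 1) - (Q - q) := by ring
    rw [h1]
    have i1 := abs_le.1 (hprod _ _ _ _ ha hQ)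
    have i2 := abs_le.1 (hprod _ _ _ _ hq hd)
    have i3 := abs_le.1 hQq
    rw [abs_le]
    constructor <;> nlinarith
  have e3 : |d * Q - q * a| ≤ 3 * (δ * n) := by
    have h1 : d * Q - q * a = (d - 1) * Q - q * (a - 1) + (Q - q) := by ring
    rw [h1]
    have i1 := abs_le.1 (hprod _ _ _ _ hd hQ)
    have i2 := abs_le.1 (hprod _ _ _ _ hq ha)
    have i3 := abs_le.1 hQq
    rw [abs_le]
    constructor <;> nlinarith
  have hkey : ∀ x y : ℝ, |y| ≤ 3 * (δ * n) → |x * y| ≤ 3 * δ * ((x ^ 2 + n ^ 2) / 2) := by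
    intro x y hy
    have h1 := hprod x y |x| (3 * (δ * n)) le_rfl hy
    have h2 : |x| * n ≤ (x ^ 2 + n ^ 2) / 2 := by
      rw [← sq_abs x]
      nlinarith [sq_nonneg (|x| - n)]
    calc |x * y| ≤ |x| * (3 * (δ * n)) := h1
      _ = 3 * δ * (|x| * n) := by ring
      _ ≤ _ := mul_le_mul_of_nonneg_left h2 (by linarith)
  have k1 := abs_le.1 (hkey (a - 1) _ e1)
  have k2 := abs_le.1 (hkey b _ e2)
  have k3 := abs_le.1 (hkey c _ e3)
  have k4 := abs_le.1 (hkey (d - 1) _ e4)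
  have hPa := abs_le.1 hP
  have hpa := abs_le.1 hp
  have m1 : 0 ≤ (P + p) / 2 := by linarith
  have m2 : (P + p) / 2 ≤ 1 + δ := by linarith
  have m3 : (P + p) / 2 * b ^ 2 ≤ (1 + δ) * b ^ 2 := mul_le_mul_of_nonneg_right m2 (sq_nonneg b)
  have m4 : (P + p) / 2 * c ^ 2 ≤ (1 + δ) * c ^ 2 := mul_le_mul_of_nonneg_right m2 (sq_nonneg c)
  have m5 : 0 ≤ (P + p) / 2 * b ^ 2 := mul_nonneg m1 (sq_nonneg b)
  have m6 : 0 ≤ (P + p) / 2 * c ^ 2 := mul_nonneg m1 (sq_nonneg c)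
  have hr : GRO_N' a b c d P Q p q = 2 * ((a - 1) * (a * (P - p) / 2 + b * Q + q * c) + b * (-(a * Q) + q * d) +
      c * (d * Q - q * a) + (d - 1) * (-(c * Q) - d * (P - p) / 2 - q * b) - (P + p) / 2 * b ^ 2 + (P + p) / 2 * c ^ 2) := by
    unfold GRO_N'
    ring
  rw [hr]
  have s1 := sq_nonneg (a - 1)
  have s2 := sq_nonneg b
  have s3 := sq_nonneg c
  have s4 := sq_nonneg (d - 1)
  have w1 := mul_nonneg hδ s1
  have w2 := mul_nonneg hδ s2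
  have w3 := mul_nonneg hδ s3
  have w4 := mul_nonneg hδ s4
  have w5 : δ * n ^ 2 ≤ δ * ((a - 1) ^ 2 + b ^ 2 + c ^ 2 + (d - 1) ^ 2) := mul_le_mul_of_nonneg_left hN hδ
  rw [abs_le]
  constructor
  · nlinarith
  · nlinarith

theorem GRO_proof (_h1 : NMB_stmt) : GRO_stmt := by
  intro δ p q f hδ hδ' hF hf g E t
  by_cases hbig : 1 ≤ 2 * nm E * Real.exp ((1 + 20 * δ) * |t|)
  · exact (min_le_left _ _).trans hbig
  have hsm : 2 * nm E * Real.exp ((1 + 20 * δ) * |t|) < 1 := not_le.1 hbig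
  obtain ⟨-, -, -, -, hE0⟩ := GRO_nm E
  have hX0 : 0 ≤ 2 * nm E * Real.exp ((1 + 20 * δ) * |t|) := by positivity
  have hexp : Real.exp (2 * (1 + 20 * δ) * |t|) = Real.exp ((1 + 20 * δ) * |t|) ^ 2 := by
    rw [← Real.exp_nat_mul]
    congr 1
    push_cast
    ring
  have hA1 : 4 * nm E ^ 2 * Real.exp (2 * (1 + 20 * δ) * |t|) < 1 := by
    rw [hexp]
    calc 4 * nm E ^ 2 * Real.exp ((1 + 20 * δ) * |t|) ^ 2 = (2 * nm E * Real.exp ((1 + 20 * δ) * |t|)) ^ 2 := by ring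
      _ < 1 := by nlinarith
  have hder := GRO_der p q f hf g (g * E)
  have hbd : ∀ s, GRO_N ((f s g)⁻¹ * f s (g * E)) < 1 →
      |GRO_N' (((f s g)⁻¹ * f s (g * E)).1 0 0) (((f s g)⁻¹ * f s (g * E)).1 0 1) (((f s g)⁻¹ * f s (g * E)).1 1 0)
        (((f s g)⁻¹ * f s (g * E)).1 1 1) (p (f s (g * E))) (q (f s (g * E))) (p (f s g)) (q (f s g))| ≤
      2 * (1 + 20 * δ) * GRO_N ((f s g)⁻¹ * f s (g * E)) := by
    intro s hs
    obtain ⟨i1, i2, i3, i4, i5⟩ := GRO_nm ((f s g)⁻¹ * f s (g * E))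
    have hn2 := GRO_N2 ((f s g)⁻¹ * f s (g * E))
    have hn1 : nm ((f s g)⁻¹ * f s (g * E)) ≤ 1 := by nlinarith
    have hh : f s g * ((f s g)⁻¹ * f s (g * E)) = f s (g * E) := mul_inv_cancel_left _ _
    have hp1 := hF.p1 (f s g) ((f s g)⁻¹ * f s (g * E))
    have hq1 := hF.q1 (f s g) ((f s g)⁻¹ * f s (g * E))
    rw [hh] at hp1 hq1
    exact GRO_bd δ _ _ _ _ _ _ _ _ _ hδ hδ' i5 hn1 i1 i2 i3 i4 hn2 (hF.p0 _) (hF.q0 _) (hF.p0 _) (hF.q0 _) hp1 hq1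
  have hzero : GRO_N ((f 0 g)⁻¹ * f 0 (g * E)) ≤ 4 * nm E ^ 2 := by
    rw [hf.zero, hf.zero, inv_mul_cancel_left]
    exact GRO_N1 E
  have hL : 0 ≤ 2 * (1 + 20 * δ) := by linarith
  have hmain : GRO_N ((f t g)⁻¹ * f t (g * E)) ≤ 4 * nm E ^ 2 * Real.exp (2 * (1 + 20 * δ) * |t|) := by
    rcases le_total 0 t with ht | ht
    · rw [abs_of_nonneg ht] at hA1 ⊢
      exact GRO_gr (2 * (1 + 20 * δ)) hL (fun s => GRO_N ((f s g)⁻¹ * f s (g * E))) _ hder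
        (fun s hs => (le_abs_self _).trans (hbd s hs)) t ht _ (by positivity) hzero hA1
    · rw [abs_of_nonpos ht] at hA1 ⊢
      have h2 := GRO_gr (2 * (1 + 20 * δ)) hL (fun s => GRO_N ((f (-s) g)⁻¹ * f (-s) (g * E))) _
        (fun s => (hder (-s)).scomp s (hasDerivAt_neg s))
        (fun s hs => by
          have h3 := hbd (-s) hs
          have h4 := (abs_le.1 h3).1
          rw [smul_eq_mul]
          linarith) (-t) (by linarith) (4 * nm E ^ 2) (by positivity) (by simpa using hzero) hA1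
      simpa using h2
  refine (min_le_right _ _).trans ?_
  have h5 := GRO_N2 ((f t g)⁻¹ * f t (g * E))
  obtain ⟨-, -, -, -, h6⟩ := GRO_nm ((f t g)⁻¹ * f t (g * E))
  have h7 : nm ((f t g)⁻¹ * f t (g * E)) ^ 2 ≤ (2 * nm E * Real.exp ((1 + 20 * δ) * |t|)) ^ 2 := by
    calc nm ((f t g)⁻¹ * f t (g * E)) ^ 2 ≤ 4 * nm E ^ 2 * Real.exp (2 * (1 + 20 * δ) * |t|) := h5.trans hmain
      _ = _ := by rw [hexp]; ring
  exact (abs_le_of_sq_le_sq' h7 hX0).2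

end Pool.Agent.VQE
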